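import Pool.Agent.helper95.PY2.Spec

/-! # MP_f6e9a2: row MASS of project py2 -/

set_option autoImplicit false

open Finset

namespace Pool.Agent.PY2

theorem MASS_one {p : ℕ} [Fact p.Prime] (N : ℕ) (z : ZMod p × ZMod p) (hz : z.1 ≠ z.2) :
    ∑ x : ZMod p, (((range N).filter
      fun n : ℕ => ((n : ℕ) : ZMod p) + z.1 = x * (z.2 - z.1)).card : ℝ) = N := by
  have hd : z.2 - z.1 ≠ 0 := sub_ne_zero.mpr hz.symm
  have h1 : ∑ x : ZMod p, ((range N).filter
      fun n : ℕ => ((n : ℕ) : ZMod p) + z.1 = x * (z.2 - z.1)).card = (range N).card := by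
    rw [Finset.card_eq_sum_card_fiberwise
      (f := fun n : ℕ => (((n : ℕ) : ZMod p) + z.1) / (z.2 - z.1)) (t := Finset.univ)
      (fun _ _ => by simp)]
    refine Finset.sum_congr rfl fun x _ => ?_
    congr 1
    ext n
    simp only [mem_filter]
    rw [div_eq_iff hd]
  rw [card_range] at h1
  exact_mod_cast h1

theorem MASS_pr {p : ℕ} [Fact p.Prime] (B : Finset (ZMod p)) (L j : ℕ) :
    ((cl B L j).card : ℝ)⁻¹ * ((pr B L j).card : ℝ) ≤ (cl B L j).card := by
  have h : (pr B L j).card ≤ (cl B L j).card * (cl B L j).card := by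
    unfold pr
    refine (Finset.card_filter_le _ _).trans ?_
    rw [Finset.card_product]
  have h' : ((pr B L j).card : ℝ) ≤ ((cl B L j).card : ℝ) * (cl B L j).card := by
    exact_mod_cast h
  rcases Nat.eq_zero_or_pos (cl B L j).card with h0 | h0
  · rw [h0]; simp
  · have hp : (0 : ℝ) < (cl B L j).card := by exact_mod_cast h0
    calc ((cl B L j).card : ℝ)⁻¹ * ((pr B L j).card : ℝ)
        ≤ ((cl B L j).card : ℝ)⁻¹ * (((cl B L j).card : ℝ) * (cl B L j).card) := by
          exact mul_le_mul_of_nonneg_left h' (by positivity)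
      _ = (cl B L j).card := by field_simp

theorem MASS : MASS_stmt := by
  intro p _ N L B hL
  constructor
  · intro x
    unfold nu
    positivity
  · have e1 : ∑ x : ZMod p, nu B N L x =
        ∑ j ∈ range p, ((cl B L j).card : ℝ)⁻¹ * ((pr B L j).card * N) := by
      unfold nu
      rw [Finset.sum_comm]
      refine Finset.sum_congr rfl fun j _ => ?_
      rw [← Finset.mul_sum, Finset.sum_comm]
      congr 1
      rw [Finset.sum_congr rfl (g := fun _ => (N : ℝ))]
      · rw [Finset.sum_const, nsmul_eq_mul]
      · intro z hz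
        refine MASS_one N z ?_
        intro he
        unfold pr at hz
        have := (mem_filter.mp hz).2
        rw [he] at this
        exact lt_irrefl _ this
    rw [e1]
    have e2 : ∀ j ∈ range p, ((cl B L j).card : ℝ)⁻¹ * ((pr B L j).card * N) ≤
        (N : ℝ) * (cl B L j).card := by
      intro j _
      have := MASS_pr B L j
      calc ((cl B L j).card : ℝ)⁻¹ * ((pr B L j).card * N)
          = (N : ℝ) * (((cl B L j).card : ℝ)⁻¹ * ((pr B L j).card : ℝ)) := by ring
        _ ≤ _ := mul_le_mul_of_nonneg_left this (by positivity)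
    refine (Finset.sum_le_sum e2).trans ?_
    rw [← Finset.mul_sum]
    refine mul_le_mul_of_nonneg_left ?_ (by positivity)
    have e3 : ∑ j ∈ range p, (cl B L j).card ≤ B.card := by
      unfold cl
      rw [← Finset.card_biUnion]
      · exact Finset.card_le_card (Finset.biUnion_subset.mpr fun j _ => Finset.filter_subset _ _)
      · intro i _ j _ hij
        rw [Function.onFun, Finset.disjoint_left]
        intro b hb hb'
        exact hij ((mem_filter.mp hb).2.symm.trans (mem_filter.mp hb').2)
    exact_mod_cast e3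

end Pool.Agent.PY2
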